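import Pool.Agent.W78.GM.Defs2

/-!
Project GM (helper78), part GP-4: residue classes of pairs of Gaussian integers.
-/

set_option autoImplicit false

namespace Pool.Agent.W880.GM

open Finset Pool.Agent.W78.GM

/-- `S` meets at most `k` residue classes of pairs modulo `N` -/
def Occ (S : Set (GaussianInt × GaussianInt)) (N k : ℕ) : Prop :=
  ∃ (β : Type) (_ : Fintype β) (f : GaussianInt × GaussianInt → β), Fintype.card β ≤ k ∧
    ∀ e ∈ S, ∀ e' ∈ S, f e = f e' →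
      (N : GaussianInt) ∣ e.1 - e'.1 ∧ (N : GaussianInt) ∣ e.2 - e'.2

lemma Occ.mono {S T : Set (GaussianInt × GaussianInt)} {N k j : ℕ} (h : Occ T N k) (hST : S ⊆ T)
    (hk : k ≤ j) : Occ S N j := by
  obtain ⟨β, hβ, f, h1, h2⟩ := h
  exact ⟨β, hβ, f, h1.trans hk, fun e he e' he' => h2 e (hST he) e' (hST he')⟩

lemma Occ.union {S T : Set (GaussianInt × GaussianInt)} {N k j : ℕ} (h : Occ S N k)
    (h' : Occ T N j) : Occ (S ∪ T) N (k + j) := by
  classical
  obtain ⟨β, hβ, f, h1, h2⟩ := h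
  obtain ⟨γ, hγ, g, h3, h4⟩ := h'
  refine ⟨β ⊕ γ, inferInstance, fun e => if e ∈ S then Sum.inl (f e) else Sum.inr (g e), ?_, ?_⟩
  · rw [Fintype.card_sum]; omega
  · intro e he e' he' hee
    by_cases hS : e ∈ S <;> by_cases hS' : e' ∈ S
    · simp only [hS, hS', if_true] at hee
      exact h2 e hS e' hS' (Sum.inl_injective hee)
    · simp [hS, hS'] at hee
    · simp [hS, hS'] at hee
    · simp only [hS, hS', if_false] at hee
      exact h4 e (he.resolve_left hS) e' (he'.resolve_left hS') (Sum.inr_injective hee)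

lemma mul_dvd_GI {N M : ℕ} (hco : Nat.Coprime N M) {z : GaussianInt}
    (h1 : (N : GaussianInt) ∣ z) (h2 : (M : GaussianInt) ∣ z) : ((N * M : ℕ) : GaussianInt) ∣ z := by
  have h4 : IsCoprime (N : ℤ) (M : ℤ) := Nat.isCoprime_iff_coprime.2 hco
  obtain ⟨a, b, hab⟩ := h4
  have h5 : IsCoprime ((N : ℕ) : GaussianInt) ((M : ℕ) : GaussianInt) := by
    refine ⟨(a : GaussianInt), (b : GaussianInt), ?_⟩
    exact_mod_cast congrArg (fun x : ℤ => (x : GaussianInt)) hab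
  push_cast
  exact h5.mul_dvd h1 h2

lemma Occ.inter {S T : Set (GaussianInt × GaussianInt)} {N M k j : ℕ} (h : Occ S N k)
    (h' : Occ T M j) (hco : Nat.Coprime N M) : Occ (S ∩ T) (N * M) (k * j) := by
  obtain ⟨β, hβ, f, h1, h2⟩ := h
  obtain ⟨γ, hγ, g, h3, h4⟩ := h'
  refine ⟨β × γ, inferInstance, fun e => (f e, g e), ?_, ?_⟩
  · rw [Fintype.card_prod]; exact Nat.mul_le_mul h1 h3
  · intro e he e' he' hee
    have h5 := Prod.mk.inj hee
    have h6 := h2 e he.1 e' he'.1 h5.1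
    have h7 := h4 e he.2 e' he'.2 h5.2
    exact ⟨mul_dvd_GI hco h6.1 h7.1, mul_dvd_GI hco h6.2 h7.2⟩

lemma Occ.card_le {S : Set (GaussianInt × GaussianInt)} {N k : ℕ} (h : Occ S N k)
    (s t : Finset (GaussianInt × GaussianInt)) (hst : s ⊆ t) (hs : ∀ e ∈ s, e ∈ S)
    (B : ℝ) (hB0 : 0 ≤ B)
    (hB : ∀ v₀ u₀ : GaussianInt, (open scoped Classical in
      ((t.filter (fun e => (N : GaussianInt) ∣ e.1 - v₀ ∧
        (N : GaussianInt) ∣ e.2 - u₀)).card : ℝ)) ≤ B) :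
    (s.card : ℝ) ≤ k * B := by
  classical
  obtain ⟨β, hβ, f, h1, h2⟩ := h
  have h3 := Finset.card_eq_sum_card_fiberwise (f := f) (s := s) (t := univ)
    (fun _ _ => by simp)
  have h4 : ∀ b ∈ (univ : Finset β), (((s.filter (fun e => f e = b)).card : ℕ) : ℝ) ≤ B := by
    intro b _
    rcases (s.filter (fun e => f e = b)).eq_empty_or_nonempty with h5 | ⟨e₀, h5⟩
    · rw [h5]; simpa using hB0
    · refine le_trans ?_ (hB e₀.1 e₀.2)
      have h6 := mem_filter.1 h5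
      have : (s.filter (fun e => f e = b)) ⊆ t.filter (fun e => (N : GaussianInt) ∣ e.1 - e₀.1 ∧
        (N : GaussianInt) ∣ e.2 - e₀.2) := by
        intro e he
        rw [mem_filter] at he
        rw [mem_filter]
        exact ⟨hst he.1, h2 e (hs e he.1) e₀ (hs e₀ h6.1) (he.2.trans h6.2.symm)⟩
      exact_mod_cast Finset.card_le_card this
  rw [h3]
  push_cast
  refine (Finset.sum_le_sum h4).trans ?_
  rw [sum_const, nsmul_eq_mul]
  refine mul_le_mul_of_nonneg_right ?_ hB0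
  rw [Finset.card_univ]
  exact_mod_cast h1

/-- a class map -/
def rd (N : ℕ) (e : GaussianInt × GaussianInt) : (ZMod N × ZMod N) × (ZMod N × ZMod N) :=
  (((e.1.re : ZMod N), (e.1.im : ZMod N)), ((e.2.re : ZMod N), (e.2.im : ZMod N)))

lemma dvd_GI_iff {N : ℕ} {z : GaussianInt} :
    (N : GaussianInt) ∣ z ↔ (z.re : ZMod N) = 0 ∧ (z.im : ZMod N) = 0 := by
  have := Zsqrtd.intCast_dvd (d := -1) (N : ℤ) z
  push_cast at this
  rw [this, ZMod.intCast_zmod_eq_zero_iff_dvd, ZMod.intCast_zmod_eq_zero_iff_dvd]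

lemma dvd_sub_GI_iff {N : ℕ} {z z' : GaussianInt} :
    (N : GaussianInt) ∣ z - z' ↔ (z.re : ZMod N) = z'.re ∧ (z.im : ZMod N) = z'.im := by
  rw [dvd_GI_iff]
  simp only [Zsqrtd.re_sub, Zsqrtd.im_sub]
  push_cast
  rw [sub_eq_zero, sub_eq_zero]

lemma rd_eq_iff {N : ℕ} {e e' : GaussianInt × GaussianInt} :
    rd N e = rd N e' ↔ (N : GaussianInt) ∣ e.1 - e'.1 ∧ (N : GaussianInt) ∣ e.2 - e'.2 := by
  unfold rd
  rw [dvd_sub_GI_iff, dvd_sub_GI_iff, Prod.mk.injEq, Prod.mk.injEq, Prod.mk.injEq]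

lemma Occ.card_image_le {S : Set (GaussianInt × GaussianInt)} {N k : ℕ} (h : Occ S N k)
    (s : Finset (GaussianInt × GaussianInt)) (hs : ∀ e ∈ s, e ∈ S) :
    (open scoped Classical in (s.image (rd N)).card) ≤ k := by
  classical
  obtain ⟨β, hβ, f, h1, h2⟩ := h
  refine le_trans ?_ h1
  rw [← Finset.card_univ]
  -- choose representatives
  have hex : ∀ c ∈ s.image (rd N), ∃ e ∈ s, rd N e = c := fun c hc => by
    simpa using hc
  choose! r hr1 hr2 using hex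
  refine Finset.card_le_card_of_injOn (fun c => f (r c)) (fun _ _ => by simp) ?_
  intro c hc c' hc' hcc
  rw [← hr2 c hc, ← hr2 c' hc']
  exact rd_eq_iff.2 (h2 _ (hs _ (hr1 c hc)) _ (hs _ (hr1 c' hc')) hcc)

lemma occ_fix (N : ℕ) (v₀ u₀ : GaussianInt) :
    Occ {e | (N : GaussianInt) ∣ e.1 - v₀ ∧ (N : GaussianInt) ∣ e.2 - u₀} N 1 := by
  refine ⟨Unit, inferInstance, fun _ => (), by simp, ?_⟩
  rintro e ⟨h1, h2⟩ e' ⟨h3, h4⟩ _
  have h5 := dvd_sub h1 h3
  have h6 := dvd_sub h2 h4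
  rw [sub_sub_sub_cancel_right] at h5 h6
  exact ⟨h5, h6⟩

/-- change of variables -/
lemma Occ.comap {S : Set (GaussianInt × GaussianInt)} {N k : ℕ} (h : Occ S N k)
    (g : GaussianInt × GaussianInt → GaussianInt × GaussianInt)
    (hg : ∀ e e', (N : GaussianInt) ∣ (g e).1 - (g e').1 ∧ (N : GaussianInt) ∣ (g e).2 - (g e').2 →
      (N : GaussianInt) ∣ e.1 - e'.1 ∧ (N : GaussianInt) ∣ e.2 - e'.2) :
    Occ {e | g e ∈ S} N k := by
  obtain ⟨β, hβ, f, h1, h2⟩ := h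
  exact ⟨β, hβ, fun e => f (g e), h1, fun e he e' he' hee => hg e e' (h2 _ he _ he' hee)⟩

/-! ### the number of all classes -/

lemma occ_dt (N : ℕ) (hN : 1 ≤ N) : Occ {e | dt e.1 e.2 = 1} N (N ^ 3) := by
  classical
  have : NeZero N := ⟨by omega⟩
  -- a partner for each class of `v`
  let P : (ZMod N × ZMod N) → GaussianInt × GaussianInt → Prop := fun c e =>
    dt e.1 e.2 = 1 ∧ ((e.1.re : ZMod N), (e.1.im : ZMod N)) = c
  let u₀ : (ZMod N × ZMod N) → GaussianInt × GaussianInt := fun c =>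
    if h : ∃ e, P c e then h.choose else (0, 0)
  let cl : GaussianInt → ZMod N × ZMod N := fun v => ((v.re : ZMod N), (v.im : ZMod N))
  refine ⟨(ZMod N × ZMod N) × ZMod N, inferInstance,
    fun e => (cl e.1, ((dt e.2 (u₀ (cl e.1)).2 : ℤ) : ZMod N)), ?_, ?_⟩
  · simp only [Fintype.card_prod, ZMod.card]
    apply le_of_eq; ring
  · intro e he e' he' hee
    have hee' := Prod.mk.inj hee
    have h1 : cl e.1 = cl e'.1 := hee'.1
    have hex : ∃ e₁, P (cl e.1) e₁ := ⟨e, he, rfl⟩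
    have h2 : P (cl e.1) (u₀ (cl e.1)) := by
      simp only [u₀, dif_pos hex]
      exact hex.choose_spec
    rw [← h1] at hee'
    have h3 := hee'.2
    set w := (u₀ (cl e.1)) with hw
    obtain ⟨h4, h5⟩ := h2
    have h5' := Prod.mk.inj h5
    have h1' := Prod.mk.inj h1
    have he1 : (dt e.1 e.2 : ℤ) = 1 := he
    have he2 : (dt e'.1 e'.2 : ℤ) = 1 := he'
    refine ⟨dvd_sub_GI_iff.2 h1', dvd_sub_GI_iff.2 ?_⟩
    have k1 : ((dt e.1 e.2 : ℤ) : ZMod N) = 1 := by rw [he1]; simp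
    have k2 : ((dt e'.1 e'.2 : ℤ) : ZMod N) = 1 := by rw [he2]; simp
    have k3 : ((dt w.1 w.2 : ℤ) : ZMod N) = 1 := by rw [h4]; simp
    unfold dt at k1 k2 k3 h3
    push_cast at k1 k2 k3 h3
    obtain ⟨a1, a2⟩ := h1'
    obtain ⟨b1, b2⟩ := h5'
    rw [b1, b2] at k3
    rw [← a1, ← a2] at k2
    -- Cramer
    constructor
    · linear_combination (-(e.2.re : ZMod N) + (e'.2.re : ZMod N)) * k3 +
        (w.2.re : ZMod N) * (k1 - k2) + (e.1.re : ZMod N) * h3
    · linear_combination (-(e.2.im : ZMod N) + (e'.2.im : ZMod N)) * k3 +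
        (w.2.im : ZMod N) * (k1 - k2) + (e.1.im : ZMod N) * h3

end Pool.Agent.W880.GM
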