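import Pool.Agent.W880.GM.Loc

/-!
Project GM (helper78), part GP-4: `sq_of` and `exc2_of`.
-/

set_option autoImplicit false

namespace Pool.Agent.W880.GM

open Finset Pool.Agent.W78.GM

/-! ### sums over primes -/

/-- Chebyshev's function -/
noncomputable def th (N : ℕ) : ℝ := ∑ p ∈ (range (N + 1)).filter Nat.Prime, Real.log p

lemma th_le (N : ℕ) : th N ≤ N * Real.log 4 := by
  have h1 := primorial_le_four_pow N
  have h2 : th N = Real.log (primorial N) := by
    unfold th primorial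
    push_cast
    rw [Real.log_prod]
    intro p hp
    have := (mem_filter.1 hp).2.pos
    positivity
  rw [h2]
  have h3 : ((primorial N : ℕ) : ℝ) ≤ (4 : ℝ) ^ N := by exact_mod_cast h1
  have h4 : (0 : ℝ) < primorial N := by exact_mod_cast primorial_pos N
  calc Real.log (primorial N) ≤ Real.log ((4 : ℝ) ^ N) := Real.log_le_log h4 h3
    _ = N * Real.log 4 := by rw [Real.log_pow]

lemma th_nonneg (N : ℕ) : 0 ≤ th N := by
  unfold th
  refine sum_nonneg fun p hp => Real.log_natCast_nonneg p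

lemma th_succ (N : ℕ) : th (N + 1) = th N + if (N + 1).Prime then Real.log ((N + 1 : ℕ) : ℝ) else 0 := by
  unfold th
  rw [sum_filter, sum_filter, sum_range_succ]

lemma log_four_le : Real.log 4 ≤ 3 / 2 := by
  have h : (4 : ℝ) = 2 ^ 2 := by norm_num
  rw [h, Real.log_pow]
  have := Real.log_two_lt_d9
  push_cast
  linarith

lemma tail_aux (z : ℕ) (hz : 1 ≤ z) (N : ℕ) (hN : z ≤ N) :
    ∑ p ∈ (Ioc z N).filter Nat.Prime, Real.log p / (p : ℝ) ^ 2 ≤
      th N / (N : ℝ) ^ 2 + 3 * (1 / (z : ℝ) - 1 / N) := by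
  induction N, hN using Nat.le_induction with
  | base =>
    simp only [Ioc_self, filter_empty, sum_empty, sub_self, mul_zero, add_zero]
    have := th_nonneg z
    positivity
  | succ N hN ih =>
    have hN1 : 1 ≤ N := hz.trans hN
    have hNR : (1 : ℝ) ≤ N := by exact_mod_cast hN1
    rw [sum_filter, ← Finset.insert_Ioc_right_eq_Ioc_add_one hN, sum_insert (by simp)]
    rw [sum_filter] at ih
    have h1 := th_succ N
    have h2 := th_le N
    have h3 := log_four_le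
    have h5 : (if (N + 1).Prime then Real.log ((N + 1 : ℕ) : ℝ) / ((N + 1 : ℕ) : ℝ) ^ 2 else 0) =
        (th (N + 1) - th N) / ((N + 1 : ℕ) : ℝ) ^ 2 := by
      rw [h1]
      split_ifs <;> simp
    rw [h5]
    have h6 : th N * (1 / (N : ℝ) ^ 2 - 1 / ((N : ℝ) + 1) ^ 2) ≤
        3 * (1 / (N : ℝ) - 1 / ((N : ℝ) + 1)) := by
      have h7 : 1 / (N : ℝ) ^ 2 - 1 / ((N : ℝ) + 1) ^ 2 =
        (2 * N + 1) / ((N : ℝ) ^ 2 * ((N : ℝ) + 1) ^ 2) := by
        field_simp
        ring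
      have h8 : 1 / (N : ℝ) - 1 / ((N : ℝ) + 1) = 1 / (N * (N + 1)) := by
        field_simp
        ring
      rw [h7, h8]
      have h9 : th N ≤ N * (3 / 2) := by
        refine h2.trans ?_
        exact mul_le_mul_of_nonneg_left h3 (by positivity)
      calc th N * ((2 * N + 1) / ((N : ℝ) ^ 2 * ((N : ℝ) + 1) ^ 2))
          ≤ (N * (3 / 2)) * ((2 * N + 1) / ((N : ℝ) ^ 2 * ((N : ℝ) + 1) ^ 2)) :=
            mul_le_mul_of_nonneg_right h9 (by positivity)
        _ ≤ 3 * (1 / (N * (N + 1))) := by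
            rw [← sub_nonneg]
            have : 3 * (1 / ((N : ℝ) * (N + 1))) -
              (N * (3 / 2)) * ((2 * N + 1) / ((N : ℝ) ^ 2 * ((N : ℝ) + 1) ^ 2)) =
              (3 / 2) / (N * ((N : ℝ) + 1) ^ 2) := by
              field_simp
              ring
            rw [this]
            positivity
    push_cast
    have h10 : th (N + 1) / ((N : ℝ) + 1) ^ 2 = (th (N + 1) - th N) / ((N : ℝ) + 1) ^ 2 +
      th N / ((N : ℝ) + 1) ^ 2 := by ring
    rw [h10]
    have h11 : th N / (N : ℝ) ^ 2 = th N * (1 / (N : ℝ) ^ 2) := by ring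
    have h12 : th N / ((N : ℝ) + 1) ^ 2 = th N * (1 / ((N : ℝ) + 1) ^ 2) := by ring
    rw [h12]
    rw [h11] at ih
    linarith

lemma tail_prime (z : ℕ) (hz : 2 ≤ z) (N : ℕ) :
    ∑ p ∈ (Ioc z N).filter Nat.Prime, 1 / (p : ℝ) ^ 2 ≤ 3 / (z * Real.log z) := by
  have hzR : (2 : ℝ) ≤ z := by exact_mod_cast hz
  have hlog : 0 < Real.log z := Real.log_pos (by linarith)
  rcases le_or_gt N z with h | h
  · rw [Ioc_eq_empty (by omega)]
    simp only [filter_empty, sum_empty]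
    positivity
  · have hN : (0 : ℝ) < N := by
      have : 0 < N := by omega
      exact_mod_cast this
    have h1 := tail_aux z (by omega) N h.le
    have h2 : th N / (N : ℝ) ^ 2 ≤ 3 * (1 / N) := by
      have := th_le N
      have h3 := log_four_le
      rw [div_le_iff₀ (by positivity)]
      have h4 : th N ≤ N * (3 / 2) := this.trans (mul_le_mul_of_nonneg_left h3 hN.le)
      refine h4.trans ?_
      have h5 : 3 * (1 / (N : ℝ)) * (N : ℝ) ^ 2 = 3 * N := by field_simp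
      rw [h5]
      nlinarith
    have h3 : ∑ p ∈ (Ioc z N).filter Nat.Prime, Real.log p / (p : ℝ) ^ 2 ≤ 3 / z := by
      refine h1.trans ?_
      have : 3 / (z : ℝ) = 3 * (1 / N) + 3 * (1 / (z : ℝ) - 1 / N) := by ring
      rw [this]
      linarith
    have h4 : Real.log z * ∑ p ∈ (Ioc z N).filter Nat.Prime, 1 / (p : ℝ) ^ 2 ≤ 3 / z := by
      refine le_trans ?_ h3
      rw [mul_sum]
      refine sum_le_sum fun p hp => ?_
      rw [mem_filter, mem_Ioc] at hp
      have h5 : Real.log z ≤ Real.log p :=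
        Real.log_le_log (by linarith) (by exact_mod_cast hp.1.1.le)
      rw [mul_one_div]
      gcongr
    rw [show (3 : ℝ) / (z * Real.log z) = (3 / z) / Real.log z by field_simp]
    rw [le_div_iff₀ hlog]
    linarith

lemma tail_all (z : ℕ) (hz : 1 ≤ z) (L : Finset ℕ) (hL : ∀ l ∈ L, z < l) :
    ∑ l ∈ L, 1 / (l : ℝ) ^ 2 ≤ 1 / (z : ℝ) := by
  classical
  have h1 : L ⊆ Ioc z (z + L.sup id) := by
    intro l hl
    rw [mem_Ioc]
    refine ⟨hL l hl, ?_⟩
    have : l ≤ L.sup id := Finset.le_sup (f := id) hl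
    omega
  refine (sum_le_sum_of_subset_of_nonneg h1 (fun _ _ _ => by positivity)).trans ?_
  have h2 := sum_Ioc_inv_sq_le_sub (α := ℝ) (k := z) (n := z + L.sup id) (by omega) (by omega)
  simp only [one_div]
  refine h2.trans ?_
  have : (0 : ℝ) ≤ (((z + L.sup id : ℕ) : ℝ))⁻¹ := by positivity
  linarith

/-! ### the classes for `n^2+1` -/

lemma sq_dvd_mul {l a b : ℕ} (hl : l.Prime) (h : l ^ 2 ∣ a * b) :
    l ^ 2 ∣ b ∨ l ^ 2 ∣ a ∨ (l ∣ a ∧ l ∣ b) := by
  by_cases ha : l ∣ a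
  · by_cases hb : l ∣ b
    · exact Or.inr (Or.inr ⟨ha, hb⟩)
    · right; left
      exact (Nat.Coprime.pow_left 2 ((hl.coprime_iff_not_dvd).2 hb)).dvd_of_dvd_mul_right h
  · left
    exact (Nat.Coprime.pow_left 2 ((hl.coprime_iff_not_dvd).2 ha)).dvd_of_dvd_mul_left h

lemma not_dvd_one {l : ℕ} (hl : l.Prime) : ¬ (l : ℤ) ∣ 1 := by
  intro h
  have : l ∣ 1 := by exact_mod_cast h
  exact hl.one_lt.ne' (Nat.dvd_one.1 this)

lemma occ_sq {l : ℕ} (hl : l.Prime) (h4 : l % 4 = 1) :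
    Occ {e | dt e.1 e.2 = 1 ∧ l ^ 2 ∣ NN e} (l ^ 2) (6 * l ^ 4) := by
  have hκ := not_dvd_one hl
  refine (((occ1 hl h4 hκ).union (occ1' hl h4 hκ)).union (occ2 hl h4 hκ)).mono ?_ (by omega)
  rintro e ⟨h1, h2⟩
  unfold NN at h2
  rcases sq_dvd_mul hl h2 with h | h | h
  · exact Or.inl (Or.inl ⟨h1, h⟩)
  · exact Or.inl (Or.inr ⟨h1, h⟩)
  · exact Or.inr ⟨h1, h⟩

lemma dt_add_mul (v u : GaussianInt) (c : ℕ) : dt v (v + c * u) = c * dt v u := by
  unfold dt
  simp [Zsqrtd.re_mul, Zsqrtd.im_mul]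
  ring

lemma dt_add_mul' (v u : GaussianInt) (c : ℕ) : dt (v + c * u) u = dt v u := by
  unfold dt
  simp [Zsqrtd.re_mul, Zsqrtd.im_mul]
  ring

/-- the classes for the resolution, `l ≠ q` -/
lemma occ_res {l q : ℕ} (hl : l.Prime) (h4 : l % 4 = 1) (hq : q.Prime) (hlq : l ≠ q) :
    Occ {e | dt e.1 e.2 = 1 ∧ l ∣ nm (e.1 + q * e.2) ∧
      (l ∣ NN e ∨ l ^ 2 ∣ nm (e.1 + q * e.2))} (l ^ 2) (6 * l ^ 4) := by
  have hco : Nat.Coprime l q := (Nat.coprime_primes hl hq).2 hlq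
  have hκ : ¬ (l : ℤ) ∣ (q : ℤ) := by
    intro h
    have h1 : l ∣ q := by exact_mod_cast h
    exact hlq ((Nat.prime_dvd_prime_iff_eq hl hq).1 h1)
  have hcop : IsCoprime (((l ^ 2 : ℕ)) : GaussianInt) ((q : ℕ) : GaussianInt) := by
    have h5 : IsCoprime ((l ^ 2 : ℕ) : ℤ) (q : ℤ) :=
      Nat.isCoprime_iff_coprime.2 (Nat.Coprime.pow_left 2 hco)
    obtain ⟨a, b, hab⟩ := h5
    refine ⟨(a : GaussianInt), (b : GaussianInt), ?_⟩
    exact_mod_cast congrArg (fun x : ℤ => (x : GaussianInt)) hab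
  have g1 : ∀ e e' : GaussianInt × GaussianInt,
      ((l ^ 2 : ℕ) : GaussianInt) ∣ e.1 - e'.1 ∧
      ((l ^ 2 : ℕ) : GaussianInt) ∣ (e.1 + q * e.2) - (e'.1 + q * e'.2) →
      ((l ^ 2 : ℕ) : GaussianInt) ∣ e.1 - e'.1 ∧ ((l ^ 2 : ℕ) : GaussianInt) ∣ e.2 - e'.2 := by
    rintro e e' ⟨h1, h2⟩
    refine ⟨h1, hcop.dvd_of_dvd_mul_left ?_⟩
    have := dvd_sub h2 h1
    have h3 : (e.1 + (q : GaussianInt) * e.2) - (e'.1 + q * e'.2) - (e.1 - e'.1) =
      (q : GaussianInt) * (e.2 - e'.2) := by ring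
    rwa [h3] at this
  have g2 : ∀ e e' : GaussianInt × GaussianInt,
      ((l ^ 2 : ℕ) : GaussianInt) ∣ (e.1 + q * e.2) - (e'.1 + q * e'.2) ∧
      ((l ^ 2 : ℕ) : GaussianInt) ∣ e.2 - e'.2 →
      ((l ^ 2 : ℕ) : GaussianInt) ∣ e.1 - e'.1 ∧ ((l ^ 2 : ℕ) : GaussianInt) ∣ e.2 - e'.2 := by
    rintro e e' ⟨h1, h2⟩
    refine ⟨?_, h2⟩
    have := dvd_sub h1 (h2.mul_left (q : GaussianInt))
    have h3 : (e.1 + (q : GaussianInt) * e.2) - (e'.1 + q * e'.2) - (q : GaussianInt) * (e.2 - e'.2) =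
      e.1 - e'.1 := by ring
    rwa [h3] at this
  have oA := (occ2 hl h4 hκ).comap (fun e => (e.1, e.1 + q * e.2)) g1
  have oB := (occ2 hl h4 (not_dvd_one hl)).comap (fun e => (e.1 + q * e.2, e.2)) g2
  have oC := (occ1 hl h4 hκ).comap (fun e => (e.1, e.1 + q * e.2)) g1
  refine ((oA.union oB).union oC).mono ?_ (by omega)
  rintro e ⟨h1, h2, h3⟩
  have d1 : dt e.1 (e.1 + q * e.2) = q := by rw [dt_add_mul, h1, mul_one]
  have d2 : dt (e.1 + q * e.2) e.2 = 1 := by rw [dt_add_mul', h1]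
  rcases h3 with h3 | h3
  · unfold NN at h3
    rcases (Nat.Prime.dvd_mul hl).1 h3 with h5 | h5
    · exact Or.inl (Or.inl ⟨d1, h5, h2⟩)
    · exact Or.inl (Or.inr ⟨d2, h2, h5⟩)
  · exact Or.inr ⟨d1, h3⟩

lemma nm_xx {q : ℕ} (hq : q.Prime) (h4 : q % 4 = 1) {e : GaussianInt × GaussianInt}
    (h : gp q ∣ e.1) : nm (e.1 + q * e.2) = q * nm (xx (gp q) e) := by
  have hnm := gp_nm hq h4
  have h0 : gp q ≠ 0 := ne_zero_of_nm hq hnm
  have h1 : gp q * (e.1 / gp q) = e.1 := EuclideanDomain.mul_div_cancel' h0 h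
  have h2 : gp q * star (gp q) = (q : GaussianInt) := by rw [mul_star_self', hnm]
  have h3 : e.1 + q * e.2 = gp q * xx (gp q) e := by
    unfold xx
    rw [mul_add, h1, ← mul_assoc, h2]
  rw [h3, nm_mul, hnm]

/-! ### SQ -/

/-- `SQ` from `EQU` and `LARGE` -/
theorem sq_of (hEQU : S_EQU) (hLARGE : S_LARGE) : S_SQ := by
  classical
  obtain ⟨C, hC, hE⟩ := hEQU
  obtain ⟨A, hL⟩ := hLARGE
  refine ⟨6 * C + 1, by positivity, fun z hz => ?_⟩
  have hzR : (2 : ℝ) ≤ z := by exact_mod_cast hz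
  obtain ⟨X₁, hX₁⟩ := hL (1 / (z : ℝ)) (by positivity)
  obtain ⟨X₂, hX₂⟩ := hE (2 * A)
  refine ⟨max (Real.exp 1) (max X₁ X₂), fun X hX => ?_⟩
  have hXe : Real.exp 1 ≤ X := (le_max_left _ _).trans hX
  have hXX1 : X₁ ≤ X := ((le_max_left _ _).trans (le_max_right _ _)).trans hX
  have hXX2 : X₂ ≤ X := ((le_max_right _ _).trans (le_max_right _ _)).trans hX
  have hX1 : 1 ≤ X := by
    have := Real.add_one_le_exp (1 : ℝ)
    linarith
  have hlog : 1 ≤ Real.log X := by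
    rw [Real.le_log_iff_exp_le (by linarith)]
    exact hXe
  have hlogpow : ∀ k : ℕ, 1 ≤ Real.log X ^ k := fun k => one_le_pow₀ hlog
  set N : ℕ := ⌊Real.log X ^ A⌋₊ with hN
  set L : Finset ℕ := (Ioc z N).filter (fun l => l.Prime ∧ l % 4 = 1) with hLdef
  set BL := (dedge X).filter (fun e => ∃ l : ℕ, l.Prime ∧ Real.log X ^ A < (l : ℝ) ∧
      l ^ 2 ∣ NN e) with hBL
  set B : ℕ → Finset (GaussianInt × GaussianInt) := fun l =>
    (dedge X).filter (fun e => l ^ 2 ∣ NN e) with hB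
  have hsub : (dedge X).filter (fun e => ∃ l : ℕ, l.Prime ∧ z < l ∧ l ^ 2 ∣ NN e) ⊆
      BL ∪ L.biUnion B := by
    intro e he
    rw [mem_filter] at he
    obtain ⟨he1, l, hl, hzl, hle⟩ := he
    rw [mem_union]
    by_cases hlarge : Real.log X ^ A < (l : ℝ)
    · left
      rw [hBL, mem_filter]
      exact ⟨he1, l, hl, hlarge, hle⟩
    · right
      rw [mem_biUnion]
      refine ⟨l, ?_, ?_⟩
      · rw [hLdef, mem_filter, mem_Ioc]
        refine ⟨⟨hzl, Nat.le_floor (not_lt.1 hlarge)⟩, hl, ?_⟩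
        have he2 := he1
        unfold dedge at he2
        rw [mem_filter, mem_product] at he2
        have hp1 := (mem_pball.1 he2.1.1).1
        have hp2 := (mem_pball.1 he2.1.2).1
        have hd : l ∣ nm e.1 * nm e.2 := (dvd_pow_self l two_ne_zero).trans hle
        rcases (Nat.Prime.dvd_mul hl).1 hd with h | h
        · rcases prime_dvd_nm_prim hl hp1 h with h5 | h5
          · omega
          · exact h5
        · rcases prime_dvd_nm_prim hl hp2 h with h5 | h5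
          · omega
          · exact h5
      · rw [hB, mem_filter]
        exact ⟨he1, hle⟩
  have hcardBL : (BL.card : ℝ) ≤ 1 / (z : ℝ) * X := hX₁ X hXX1
  have hcardB : ∀ l ∈ L, ((B l).card : ℝ) ≤ 6 * C * X * (1 / (l : ℝ) ^ 2) := by
    intro l hl
    rw [hLdef, mem_filter, mem_Ioc] at hl
    obtain ⟨⟨hzl, hlN⟩, hlp, hl4⟩ := hl
    have hlpos : (0 : ℝ) < l := by exact_mod_cast hlp.pos
    have hlR : (l : ℝ) ≤ Real.log X ^ A :=
      (Nat.cast_le.2 hlN).trans (Nat.floor_le (by positivity))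
    have hB1 : ∀ v₀ u₀ : GaussianInt,
        (((redge X X).filter (fun e => ((l ^ 2 : ℕ) : GaussianInt) ∣ e.1 - v₀ ∧
          ((l ^ 2 : ℕ) : GaussianInt) ∣ e.2 - u₀)).card : ℝ) ≤ C * X / ((l ^ 2 : ℕ) : ℝ) ^ 3 := by
      intro v₀ u₀
      refine hX₂ X X X (l ^ 2) v₀ u₀ hXX2 hX1 hX1 (by rw [pow_two]) ?_ ?_ ?_ ?_
      · have := hlogpow (2 * A); nlinarith
      · have := hlogpow (2 * A); nlinarith
      · exact Nat.one_le_pow _ _ hlp.pos
      · push_cast
        rw [mul_comm 2 A, pow_mul]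
        exact pow_le_pow_left₀ hlpos.le hlR 2
    have h1 := (occ_sq hlp hl4).card_le (B l) (redge X X) (by
      intro e he
      rw [hB, mem_filter] at he
      exact he.1) (by
      intro e he
      rw [hB, mem_filter] at he
      have he2 := he.1
      unfold dedge at he2
      rw [mem_filter] at he2
      exact ⟨he2.2, he.2⟩) (C * X / ((l ^ 2 : ℕ) : ℝ) ^ 3) (by positivity) hB1
    refine h1.trans (le_of_eq ?_)
    push_cast
    field_simp
  have hsum : ∑ l ∈ L, 1 / (l : ℝ) ^ 2 ≤ 1 / (z : ℝ) := by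
    refine tail_all z (by omega) L fun l hl => ?_
    rw [hLdef, mem_filter, mem_Ioc] at hl
    exact hl.1.1
  have hcard := (Finset.card_le_card hsub).trans (card_union_le _ _)
  have hcard2 : (((dedge X).filter (fun e => ∃ l : ℕ, l.Prime ∧ z < l ∧ l ^ 2 ∣ NN e)).card : ℝ) ≤
      (BL.card : ℝ) + ((L.biUnion B).card : ℝ) := by exact_mod_cast hcard
  have hcard3 : ((L.biUnion B).card : ℝ) ≤ ∑ l ∈ L, ((B l).card : ℝ) := by
    exact_mod_cast card_biUnion_le
  refine hcard2.trans ?_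
  calc (BL.card : ℝ) + ((L.biUnion B).card : ℝ)
      ≤ 1 / (z : ℝ) * X + ∑ l ∈ L, 6 * C * X * (1 / (l : ℝ) ^ 2) :=
        add_le_add hcardBL (hcard3.trans (sum_le_sum hcardB))
    _ = 1 / (z : ℝ) * X + 6 * C * X * ∑ l ∈ L, (1 / (l : ℝ) ^ 2) := by rw [mul_sum]
    _ ≤ 1 / (z : ℝ) * X + 6 * C * X * (1 / (z : ℝ)) := by
        have : 0 ≤ 6 * C * X := by positivity
        have := mul_le_mul_of_nonneg_left hsum this
        linarith
    _ = (6 * C + 1) / z * X := by ring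

/-! ### EXC2 -/

/-- the product `m` -/
lemma mz_pos (z : ℕ) : 0 < mz z := by
  unfold mz
  refine prod_pos fun l hl => ?_
  have := (mem_filter.1 hl).2.1.pos
  positivity

lemma mz_coprime {z l : ℕ} (hl : l.Prime) (h : z < l) : Nat.Coprime (mz z) l := by
  unfold mz
  rw [Nat.coprime_prod_left_iff]
  intro i hi
  rw [mem_filter, mem_range] at hi
  refine Nat.Coprime.pow_left 2 ((Nat.coprime_primes hi.2.1 hl).2 ?_)
  omega

lemma mz_split {z p : ℕ} (hp : p.Prime) (h4 : p % 4 = 1) (hpz : p ≤ z) :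
    ∃ m' : ℕ, 1 ≤ m' ∧ mz z = m' * p ^ 2 ∧ Nat.Coprime m' (p ^ 2) := by
  have hmem : p ∈ (range (z + 1)).filter (fun l => l.Prime ∧ l % 4 = 1) := by
    rw [mem_filter, mem_range]
    exact ⟨by omega, hp, h4⟩
  refine ⟨∏ l ∈ ((range (z + 1)).filter (fun l => l.Prime ∧ l % 4 = 1)).erase p, l ^ 2, ?_, ?_, ?_⟩
  · refine Nat.one_le_iff_ne_zero.2 (prod_ne_zero_iff.2 fun l hl => ?_)
    have := (mem_filter.1 (mem_of_mem_erase hl)).2.1.pos
    positivity
  · unfold mz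
    rw [prod_erase_mul _ _ hmem]
  · rw [Nat.coprime_prod_left_iff]
    intro i hi
    rw [mem_erase, mem_filter, mem_range] at hi
    exact Nat.Coprime.pow _ _ ((Nat.coprime_primes hi.2.2.1 hp).2 hi.1)

/-- number of classes of starting pairs -/
lemma occ_start {z p : ℕ} (hp : p = 1 ∨ (p.Prime ∧ p % 4 = 1 ∧ p ≤ z)) :
    ∃ k : ℕ, (k : ℝ) ≤ 2 * (mz z : ℝ) ^ 3 / (p : ℝ) ^ 2 ∧
      Occ {e | dt e.1 e.2 = 1 ∧ p ∣ nm e.1 ∧ p ∣ nm e.2} (mz z) k := by
  have hm := mz_pos z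
  rcases hp with rfl | ⟨hp, h4, hpz⟩
  · refine ⟨mz z ^ 3, ?_, (occ_dt (mz z) hm).mono (fun e he => he.1) le_rfl⟩
    push_cast
    have : (0 : ℝ) < mz z := by exact_mod_cast hm
    have h3 : (0 : ℝ) < (mz z : ℝ) ^ 3 := by positivity
    linarith
  · obtain ⟨m', hm', hmm, hco⟩ := mz_split hp h4 hpz
    refine ⟨m' ^ 3 * (2 * p ^ 4), ?_, ?_⟩
    · rw [hmm]
      have : (0 : ℝ) < p := by exact_mod_cast hp.pos
      push_cast
      apply le_of_eq
      field_simp
    · rw [hmm]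
      refine ((occ_dt m' hm').inter (occ2 hp h4 (not_dvd_one hp)) hco).mono ?_ le_rfl
      intro e he
      exact ⟨he.1, he⟩

/-- representatives of the classes -/
def lif (N : ℕ) (c : (ZMod N × ZMod N) × (ZMod N × ZMod N)) : GaussianInt × GaussianInt :=
  (⟨(c.1.1.val : ℤ), (c.1.2.val : ℤ)⟩, ⟨(c.2.1.val : ℤ), (c.2.2.val : ℤ)⟩)

lemma rd_lif (N : ℕ) [NeZero N] (c : (ZMod N × ZMod N) × (ZMod N × ZMod N)) :
    rd N (lif N c) = c := by
  obtain ⟨⟨a, b⟩, ⟨c, d⟩⟩ := c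
  unfold rd lif
  simp

/-- `EXC2` from `EQU` -/
theorem exc2_of (hEQU : S_EQU) : S_EXC2 := by
  classical
  obtain ⟨C, hC, hE⟩ := hEQU
  refine ⟨38 * C, by positivity, ?_⟩
  intro z S Q hz hS hper hQ hQS A
  obtain ⟨X₁', hX₁'⟩ := hE (2 * A + 1)
  set m := mz z with hm
  have hmpos : 0 < m := mz_pos z
  have : NeZero m := ⟨hmpos.ne'⟩
  have hmR : (1 : ℝ) ≤ m := by exact_mod_cast hmpos
  have hzR : (5 : ℝ) ≤ z := by exact_mod_cast hz
  have hlogz : 0 < Real.log z := Real.log_pos (by linarith)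
  -- the candidates by class
  set Qc : (ZMod m × ZMod m) × (ZMod m × ZMod m) → Finset ℕ := fun c =>
    Q (lif m c).1 (lif m c).2 with hQc
  have hQrd : ∀ e : GaussianInt × GaussianInt, Q e.1 e.2 = Qc (rd m e) := by
    intro e
    have h1 := rd_eq_iff.1 (rd_lif m (rd m e))
    exact (hper _ _ _ _ h1.1 h1.2).symm
  set qm : ℕ := (univ : Finset ((ZMod m × ZMod m) × (ZMod m × ZMod m))).sup
    (fun c => (Qc c).sup id) with hqm
  have hqle : ∀ c, ∀ q ∈ Qc c, q ≤ qm := fun c q hq =>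
    (Finset.le_sup (f := id) hq).trans (Finset.le_sup (f := fun c => (Qc c).sup id) (mem_univ c))
  refine ⟨max X₁' (Real.exp (m * (qm : ℝ) ^ 2 + 1)), ?_⟩
  intro X X₁ X₂ hX hX1 hX2 hXX hX1l hX2l p hp
  have hXX1 : X₁' ≤ X := (le_max_left _ _).trans hX
  have hXe : Real.exp (m * (qm : ℝ) ^ 2 + 1) ≤ X := (le_max_right _ _).trans hX
  have hXpos : 0 < X := (Real.exp_pos _).trans_le hXe
  have hlogm : m * (qm : ℝ) ^ 2 + 1 ≤ Real.log X := by
    rw [Real.le_log_iff_exp_le hXpos]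
    exact hXe
  have hlog : 1 ≤ Real.log X := by
    have : 0 ≤ m * (qm : ℝ) ^ 2 := by positivity
    linarith
  have hlogpow : ∀ k : ℕ, 1 ≤ Real.log X ^ k := fun k => one_le_pow₀ hlog
  set N : ℕ := ⌊Real.log X ^ A⌋₊ with hN
  set L : Finset ℕ := (Ioc z N).filter (fun l => l.Prime ∧ l % 4 = 1) with hLdef
  set s := (redge X₁ X₂).filter (fun e => (p ∣ nm e.1 ∧ p ∣ nm e.2) ∧
      ∃ q ∈ Q e.1 e.2, gp q ∣ e.1 ∧ ∃ l : ℕ, l.Prime ∧ l % 4 = 1 ∧ z < l ∧
        (l : ℝ) ≤ Real.log X ^ A ∧ l ∣ nm (xx (gp q) e) ∧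
        (l ∣ NN e ∨ l ^ 2 ∣ nm (xx (gp q) e))) with hs
  set B : (ZMod m × ZMod m) × (ZMod m × ZMod m) → ℕ → ℕ → Finset (GaussianInt × GaussianInt) :=
    fun c q l => (redge X₁ X₂).filter (fun e => rd m e = c ∧ gp q ∣ e.1 ∧ l ∣ nm (xx (gp q) e) ∧
        (l ∣ NN e ∨ l ^ 2 ∣ nm (xx (gp q) e))) with hB
  set Γ := s.image (rd m) with hΓ
  have hredge : ∀ e ∈ redge X₁ X₂, dt e.1 e.2 = 1 := by
    intro e he
    unfold redge at he
    exact (mem_filter.1 he).2
  -- covering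
  have hsub : s ⊆ Γ.biUnion (fun c => (Qc c).biUnion (fun q => L.biUnion (fun l => B c q l))) := by
    intro e he
    have he' := he
    rw [hs, mem_filter] at he'
    obtain ⟨he1, he2, q, hq, hqe, l, hl, hl4, hzl, hlX, hlx, hll⟩ := he'
    rw [mem_biUnion]
    refine ⟨rd m e, mem_image_of_mem _ he, ?_⟩
    rw [mem_biUnion]
    refine ⟨q, by rw [← hQrd]; exact hq, ?_⟩
    rw [mem_biUnion]
    refine ⟨l, ?_, ?_⟩
    · rw [hLdef, mem_filter, mem_Ioc]
      exact ⟨⟨hzl, Nat.le_floor hlX⟩, hl, hl4⟩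
    · rw [hB, mem_filter]
      exact ⟨he1, rfl, hqe, hlx, hll⟩
  -- number of classes
  obtain ⟨k, hk, hocc⟩ := occ_start hp
  have hppos : (0 : ℝ) < p := by
    rcases hp with rfl | ⟨hp, -, -⟩
    · norm_num
    · exact_mod_cast hp.pos
  have hΓcard : (Γ.card : ℝ) ≤ 2 * (m : ℝ) ^ 3 / (p : ℝ) ^ 2 := by
    have h1 := hocc.card_image_le s (by
      intro e he
      rw [hs, mem_filter] at he
      exact ⟨hredge e he.1, he.2.1⟩)
    refine le_trans ?_ hk
    exact_mod_cast h1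
  -- one class
  have hEQ : ∀ M : ℕ, 1 ≤ M → (M : ℝ) ≤ Real.log X ^ (2 * A + 1) → ∀ v₀ u₀ : GaussianInt,
      (((redge X₁ X₂).filter (fun e => (M : GaussianInt) ∣ e.1 - v₀ ∧
          (M : GaussianInt) ∣ e.2 - u₀)).card : ℝ) ≤ C * X / (M : ℝ) ^ 3 := by
    intro M hM1 hM2 v₀ u₀
    have hll : Real.log X ≤ Real.log X ^ (2 * A + 1) := by
      rw [pow_succ]
      have := hlogpow (2 * A)
      nlinarith
    refine hX₁' X X₁ X₂ M v₀ u₀ hXX1 hX1 hX2 hXX (hX1l.trans ?_) (hX2l.trans ?_) hM1 hM2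
    · exact mul_le_mul_of_nonneg_left hll hXpos.le
    · exact mul_le_mul_of_nonneg_left hll hXpos.le
  have hcardB : ∀ c, ∀ q ∈ Qc c, ∀ l ∈ L, ((B c q l).card : ℝ) ≤
      6 * C * X / (m : ℝ) ^ 3 * (1 / (q : ℝ)) * (1 / (l : ℝ) ^ 2) +
      (if q = l then C * X / (m : ℝ) ^ 3 * (1 / (q : ℝ) ^ 2) else 0) := by
    intro c q hq l hl
    rw [hLdef, mem_filter, mem_Ioc] at hl
    obtain ⟨⟨hzl, hlN⟩, hlp, hl4⟩ := hl
    obtain ⟨hqp, hq4, hzq⟩ := hQ _ _ q hq
    have hzq' : z < q := by nlinarith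
    have hqqm := hqle c q hq
    have hqpos : (0 : ℝ) < q := by exact_mod_cast hqp.pos
    have hlpos : (0 : ℝ) < l := by exact_mod_cast hlp.pos
    have hlR : (l : ℝ) ≤ Real.log X ^ A :=
      (Nat.cast_le.2 hlN).trans (Nat.floor_le (by positivity))
    have hqqmR : (q : ℝ) ≤ qm := by exact_mod_cast hqqm
    have hq1R : (1 : ℝ) ≤ q := by exact_mod_cast hqp.one_lt.le
    have hmq2 : (m : ℝ) * (q : ℝ) ^ 2 ≤ Real.log X := by
      have : (m : ℝ) * (q : ℝ) ^ 2 ≤ m * (qm : ℝ) ^ 2 := by gcongr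
      linarith
    have hBsub : B c q l ⊆ redge X₁ X₂ := by
      rw [hB]
      exact filter_subset _ _
    have hofix := occ_fix m (lif m c).1 (lif m c).2
    by_cases hql : q = l
    · -- l = q
      rw [if_pos hql]
      subst hql
      have ho := hofix.inter (occ4 hqp hq4) (Nat.Coprime.pow_right 2 (mz_coprime hqp hzq'))
      have h1 := ho.card_le (B c q q) (redge X₁ X₂) hBsub (by
        intro e he
        rw [hB, mem_filter] at he
        obtain ⟨he1, he2, he3, he4, he5⟩ := he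
        refine ⟨?_, hredge e he1, he3, ?_⟩
        · rw [← rd_lif m c] at he2
          exact rd_eq_iff.1 he2
        · rw [nm_xx hqp hq4 he3, pow_two]
          exact Nat.mul_dvd_mul_left q he4)
        (C * X / ((m * q ^ 2 : ℕ) : ℝ) ^ 3) (by positivity)
        (hEQ (m * q ^ 2) (Nat.one_le_iff_ne_zero.2
          (mul_ne_zero hmpos.ne' (pow_ne_zero _ hqp.ne_zero))) (by
            push_cast
            refine hmq2.trans ?_
            rw [pow_succ]
            have := hlogpow (2 * A)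
            nlinarith))
      refine h1.trans ?_
      have h2 : ((1 * q ^ 4 : ℕ) : ℝ) * (C * X / ((m * q ^ 2 : ℕ) : ℝ) ^ 3) =
          C * X / (m : ℝ) ^ 3 * (1 / (q : ℝ) ^ 2) := by
        push_cast
        field_simp
      rw [h2]
      have h3 : 0 ≤ 6 * C * X / (m : ℝ) ^ 3 * (1 / (q : ℝ)) * (1 / (q : ℝ) ^ 2) := by positivity
      linarith
    · rw [if_neg hql, add_zero]
      have hlq : l ≠ q := fun h => hql h.symm
      have hco1 : Nat.Coprime m q := mz_coprime hqp hzq'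
      have hco2 : Nat.Coprime (m * q) (l ^ 2) :=
        Nat.Coprime.pow_right 2 (Nat.Coprime.mul_left (mz_coprime hlp hzl)
          ((Nat.coprime_primes hqp hlp).2 hql))
      have ho := (hofix.inter (occ3 hqp hq4) hco1).inter (occ_res hlp hl4 hqp hlq) hco2
      have h1 := ho.card_le (B c q l) (redge X₁ X₂) hBsub (by
        intro e he
        rw [hB, mem_filter] at he
        obtain ⟨he1, he2, he3, he4, he5⟩ := he
        refine ⟨⟨?_, hredge e he1, he3⟩, hredge e he1, ?_, ?_⟩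
        · rw [← rd_lif m c] at he2
          exact rd_eq_iff.1 he2
        · rw [nm_xx hqp hq4 he3]
          exact he4.mul_left q
        · rw [nm_xx hqp hq4 he3]
          rcases he5 with h | h
          · exact Or.inl h
          · exact Or.inr (h.mul_left q))
        (C * X / ((m * q * l ^ 2 : ℕ) : ℝ) ^ 3) (by positivity)
        (hEQ (m * q * l ^ 2) (Nat.one_le_iff_ne_zero.2
          (mul_ne_zero (mul_ne_zero hmpos.ne' hqp.ne_zero) (pow_ne_zero _ hlp.ne_zero))) (by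
            push_cast
            have h5 : (m : ℝ) * q ≤ Real.log X := by
              refine le_trans ?_ hmq2
              rw [pow_two]
              have : (q : ℝ) ≤ q * q := by nlinarith
              exact mul_le_mul_of_nonneg_left this (by positivity)
            have h6 : (l : ℝ) ^ 2 ≤ Real.log X ^ (2 * A) := by
              rw [mul_comm 2 A, pow_mul]
              exact pow_le_pow_left₀ hlpos.le hlR 2
            calc (m : ℝ) * q * (l : ℝ) ^ 2 ≤ Real.log X * Real.log X ^ (2 * A) :=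
                  mul_le_mul h5 h6 (by positivity) (by linarith)
              _ = Real.log X ^ (2 * A + 1) := by ring))
      refine h1.trans (le_of_eq ?_)
      push_cast
      field_simp
  -- summation
  have hsumL : ∑ l ∈ L, 1 / (l : ℝ) ^ 2 ≤ 3 / (z * Real.log z) := by
    refine le_trans ?_ (tail_prime z (by omega) N)
    refine sum_le_sum_of_subset_of_nonneg ?_ (fun _ _ _ => by positivity)
    intro l hl
    rw [hLdef, mem_filter] at hl
    rw [mem_filter]
    exact ⟨hl.1, hl.2.1⟩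
  have hstep : ∀ c ∈ Γ, ∑ q ∈ Qc c, ∑ l ∈ L, ((B c q l).card : ℝ) ≤
      C * X / (m : ℝ) ^ 3 * (19 * S / (z * Real.log z)) := by
    intro c _
    have h1 : ∀ q ∈ Qc c, ∑ l ∈ L, ((B c q l).card : ℝ) ≤
        C * X / (m : ℝ) ^ 3 * (19 / (z * Real.log z)) * (1 / (q : ℝ)) := by
      intro q hq
      obtain ⟨hqp, hq4, hzq⟩ := hQ _ _ q hq
      have hqpos : (0 : ℝ) < q := by exact_mod_cast hqp.pos
      refine (sum_le_sum (hcardB c q hq)).trans ?_
      rw [sum_add_distrib, ← mul_sum, sum_ite_eq]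
      have h2 : (if q ∈ L then C * X / (m : ℝ) ^ 3 * (1 / (q : ℝ) ^ 2) else 0) ≤
          C * X / (m : ℝ) ^ 3 * (1 / (z * Real.log z)) * (1 / (q : ℝ)) := by
        have h3 : (1 : ℝ) / (q : ℝ) ^ 2 ≤ 1 / (z * Real.log z) * (1 / (q : ℝ)) := by
          have h5 : (z : ℝ) * Real.log z ≤ q := by
            have h6 : Real.log z ≤ z := by
              have := Real.log_le_sub_one_of_pos (x := (z : ℝ)) (by linarith)
              linarith
            have h7 : (z : ℝ) ^ 2 ≤ q := by exact_mod_cast hzq.le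
            nlinarith
          have h6 : (1 : ℝ) / (q : ℝ) ^ 2 = 1 / (q : ℝ) * (1 / (q : ℝ)) := by
            field_simp
          rw [h6]
          refine mul_le_mul_of_nonneg_right ?_ (by positivity)
          exact one_div_le_one_div_of_le (by positivity) h5
        split_ifs
        · rw [mul_assoc]
          exact mul_le_mul_of_nonneg_left h3 (by positivity)
        · positivity
      have h4 : 6 * C * X / (m : ℝ) ^ 3 * (1 / (q : ℝ)) * ∑ l ∈ L, 1 / (l : ℝ) ^ 2 ≤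
          6 * C * X / (m : ℝ) ^ 3 * (1 / (q : ℝ)) * (3 / (z * Real.log z)) :=
        mul_le_mul_of_nonneg_left hsumL (by positivity)
      calc _ ≤ 6 * C * X / (m : ℝ) ^ 3 * (1 / (q : ℝ)) * (3 / (z * Real.log z)) +
            C * X / (m : ℝ) ^ 3 * (1 / (z * Real.log z)) * (1 / (q : ℝ)) := add_le_add h4 h2
        _ = _ := by ring
    refine (sum_le_sum h1).trans ?_
    rw [← mul_sum]
    have h5 := hQS (lif m c).1 (lif m c).2
    calc _ ≤ C * X / (m : ℝ) ^ 3 * (19 / (z * Real.log z)) * S :=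
          mul_le_mul_of_nonneg_left h5 (by positivity)
      _ = _ := by ring
  have hcard1 : (s.card : ℝ) ≤ ∑ c ∈ Γ, ∑ q ∈ Qc c, ∑ l ∈ L, ((B c q l).card : ℝ) := by
    have h1 : s.card ≤ ∑ c ∈ Γ, ∑ q ∈ Qc c, ∑ l ∈ L, (B c q l).card := by
      refine (card_le_card hsub).trans (card_biUnion_le.trans (sum_le_sum fun c _ => ?_))
      refine card_biUnion_le.trans (sum_le_sum fun q _ => ?_)
      exact card_biUnion_le
    exact_mod_cast h1
  refine hcard1.trans ((sum_le_sum hstep).trans ?_)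
  rw [sum_const, nsmul_eq_mul]
  calc (Γ.card : ℝ) * (C * X / (m : ℝ) ^ 3 * (19 * S / (z * Real.log z)))
      ≤ (2 * (m : ℝ) ^ 3 / (p : ℝ) ^ 2) * (C * X / (m : ℝ) ^ 3 * (19 * S / (z * Real.log z))) := by
        refine mul_le_mul_of_nonneg_right hΓcard (by positivity)
    _ = 38 * C * S / (z * Real.log z) * X / (p : ℝ) ^ 2 := by
        field_simp
        ring

end Pool.Agent.W880.GM
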