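import Pool.Agent.W880.GM.Occ

/-!
Project GM (helper78), part GP-4: local counts modulo `l` and `l^2`.
-/

set_option autoImplicit false

namespace Pool.Agent.W880.GM

open Finset Pool.Agent.W78.GM

/-- `x + I y` -/
def ph {n : ℕ} (I : ZMod n) (z : GaussianInt) : ZMod n := (z.re : ZMod n) + I * (z.im : ZMod n)

section
variable {n : ℕ} {I : ZMod n}

lemma ph_mul (hI : I * I = -1) (z w : GaussianInt) : ph I (z * w) = ph I z * ph I w := by
  unfold ph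
  simp only [Zsqrtd.re_mul, Zsqrtd.im_mul]
  push_cast
  linear_combination (-(z.im : ZMod n) * (w.im : ZMod n)) * hI

lemma ph_add (z w : GaussianInt) : ph I (z + w) = ph I z + ph I w := by
  unfold ph
  simp only [Zsqrtd.re_add, Zsqrtd.im_add]
  push_cast
  ring

lemma ph_sub (z w : GaussianInt) : ph I (z - w) = ph I z - ph I w := by
  unfold ph
  simp only [Zsqrtd.re_sub, Zsqrtd.im_sub]
  push_cast
  ring

lemma ph_nat (k : ℕ) : ph I (k : GaussianInt) = (k : ZMod n) := by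
  unfold ph
  simp

lemma neg_sq' (hI : I * I = -1) : (-I) * (-I) = -1 := by rw [neg_mul_neg, hI]

lemma nm_ph (hI : I * I = -1) (z : GaussianInt) : ((nm z : ℕ) : ZMod n) = ph I z * ph (-I) z := by
  have h := nm_cast z
  have h2 : ((nm z : ℤ) : ZMod n) = ((z.re ^ 2 + z.im ^ 2 : ℤ) : ZMod n) := by rw [h]
  push_cast at h2
  rw [h2]
  unfold ph
  linear_combination (z.im : ZMod n) ^ 2 * hI

lemma dt_ph (v w : GaussianInt) :
    ph (-I) v * ph I w - ph I v * ph (-I) w = 2 * I * ((dt v w : ℤ) : ZMod n) := by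
  unfold ph dt
  push_cast
  ring

lemma dvd_of_ph (hI : I * I = -1) (h2 : IsUnit (2 : ZMod n)) {z : GaussianInt} (h : ph I z = 0)
    (h' : ph (-I) z = 0) : (n : GaussianInt) ∣ z := by
  rw [dvd_GI_iff]
  unfold ph at h h'
  have h3 : (2 : ZMod n) * (z.re : ZMod n) = 0 := by linear_combination h + h'
  have h4 : (2 : ZMod n) * (z.im : ZMod n) = 0 := by
    linear_combination (-I) * (h - h') + 2 * (z.im : ZMod n) * hI
  exact ⟨h2.mul_right_eq_zero.1 h3, h2.mul_right_eq_zero.1 h4⟩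

lemma dvd_sub_of_ph (hI : I * I = -1) (h2 : IsUnit (2 : ZMod n)) {z z' : GaussianInt}
    (h : ph I z = ph I z') (h' : ph (-I) z = ph (-I) z') : (n : GaussianInt) ∣ z - z' := by
  refine dvd_of_ph hI h2 ?_ ?_
  · rw [ph_sub, h, sub_self]
  · rw [ph_sub, h', sub_self]

lemma isUnit_I (hI : I * I = -1) : IsUnit I :=
  IsUnit.of_mul_eq_one (-I) (by rw [mul_neg, hI, neg_neg])

end

/-! ### modulus `l^2` -/

section
variable {l : ℕ}

lemma two_unit (hl : l.Prime) (h2 : l ≠ 2) (k : ℕ) : IsUnit (2 : ZMod (l ^ k)) := by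
  have h := (ZMod.isUnit_iff_coprime 2 (l ^ k)).2 (Nat.Coprime.pow_right _
    ((Nat.coprime_primes Nat.prime_two hl).2 (Ne.symm h2)))
  exact_mod_cast h

/-- a square root of `-1` killing `ρ^k` -/
lemma exists_I (hl : l.Prime) (h4 : l % 4 = 1) {k : ℕ} (hk : k = 1 ∨ k = 2) :
    ∃ I : ZMod (l ^ k), I * I = -1 ∧ ph I (gp l ^ k) = 0 := by
  set ρ := gp l with hρ
  have hnm : nm ρ = l := gp_nm hl h4
  have hl2 : l ≠ 2 := by rintro rfl; omega
  -- `im (ρ^k)` is a unit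
  have hnk : nm (ρ ^ k) = l ^ k := by rw [nm_pow, hnm]
  have him : ¬ (l : ℤ) ∣ (ρ ^ k).im := by
    have hprim := prim_of_nm_prime hl hnm
    have key1 : ∀ z : GaussianInt, l ∣ nm z → (l : ℤ) ∣ z.im → (l : GaussianInt) ∣ z := by
      intro z h1 h2
      have h3 : (l : ℤ) ∣ z.re ^ 2 + z.im ^ 2 := by
        rw [← nm_cast]; exact_mod_cast h1
      have h5 : (l : ℤ) ∣ z.re ^ 2 := by
        have := dvd_sub h3 (h2.pow (two_ne_zero))
        simpa using this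
      have h6 := (Nat.prime_iff_prime_int.1 hl).dvd_of_dvd_pow h5
      rw [dvd_GI_iff, ZMod.intCast_zmod_eq_zero_iff_dvd, ZMod.intCast_zmod_eq_zero_iff_dvd]
      exact ⟨h6, h2⟩
    intro h
    have h1 : (l : GaussianInt) ∣ ρ ^ k := by
      refine key1 _ ?_ h
      rw [hnk]
      exact dvd_pow_self l (by rcases hk with h | h <;> omega)
    rw [← hnm, ← star_mul_self'] at h1
    have h2 : star ρ ∣ ρ ^ k := (Dvd.intro _ rfl).trans h1
    have h3 : Prime (star ρ) := prime_of_nm hl (by rw [nm_star]; exact hnm)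
    have h4' := h3.dvd_of_dvd_pow h2
    have h5 := not_dvd_star hl hl2 (π := star ρ) (by rw [nm_star]; exact hnm)
    rw [star_star] at h5
    exact h5 h4'
  have hu : IsUnit (((ρ ^ k).im : ℤ) : ZMod (l ^ k)) := by
    rw [ZMod.coe_int_isUnit_iff_isCoprime]
    push_cast
    exact IsCoprime.pow_left ((Nat.prime_iff_prime_int.1 hl).coprime_iff_not_dvd.2 him)
  obtain ⟨s, hs⟩ := hu
  refine ⟨-((ρ ^ k).re : ZMod (l ^ k)) * (s⁻¹ : (ZMod (l ^ k))ˣ), ?_, ?_⟩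
  · have h1 : (((ρ ^ k).re : ℤ) : ZMod (l ^ k)) ^ 2 + (((ρ ^ k).im : ℤ) : ZMod (l ^ k)) ^ 2 = 0 := by
      have h := nm_cast (ρ ^ k)
      rw [hnk] at h
      have h2 : (((l ^ k : ℕ) : ℤ) : ZMod (l ^ k)) =
        (((ρ ^ k).re ^ 2 + (ρ ^ k).im ^ 2 : ℤ) : ZMod (l ^ k)) := by rw [h]
      push_cast at h2
      rw [← h2]
      have := ZMod.natCast_self (l ^ k)
      push_cast at this
      exact this
    rw [← hs] at h1
    have h3 : (s : ZMod (l ^ k)) * ((s⁻¹ : (ZMod (l ^ k))ˣ) : ZMod (l ^ k)) = 1 := by simp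
    linear_combination ((s⁻¹ : (ZMod (l ^ k))ˣ) : ZMod (l ^ k)) ^ 2 * h1 -
      ((s : ZMod (l ^ k)) * ((s⁻¹ : (ZMod (l ^ k))ˣ) : ZMod (l ^ k)) + 1) * h3
  · unfold ph
    rw [← hs]
    have h3 : (s : ZMod (l ^ k)) * ((s⁻¹ : (ZMod (l ^ k))ˣ) : ZMod (l ^ k)) = 1 := by simp
    linear_combination (-(((ρ ^ k).re : ℤ) : ZMod (l ^ k))) * h3

/-! ### nonunits modulo `l^2` -/

lemma nonunit_iff (hl : l.Prime) {a : ZMod (l ^ 2)} : ¬ IsUnit a ↔ l ∣ a.val := by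
  have : NeZero (l ^ 2) := ⟨pow_ne_zero _ hl.ne_zero⟩
  conv_lhs => rw [← ZMod.natCast_zmod_val a]
  rw [ZMod.isUnit_natCast_iff_not_dvd_pow hl two_pos, not_not]

lemma exists_of_nonunit (hl : l.Prime) {a : ZMod (l ^ 2)} (h : ¬ IsUnit a) :
    ∃ k : ℕ, a = (l : ZMod (l ^ 2)) * (k : ZMod (l ^ 2)) := by
  have : NeZero (l ^ 2) := ⟨pow_ne_zero _ hl.ne_zero⟩
  obtain ⟨k, hk⟩ := (nonunit_iff hl).1 h
  refine ⟨k, ?_⟩
  rw [← ZMod.natCast_zmod_val a, hk]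
  push_cast
  ring

lemma nonunit_l (hl : l.Prime) (b : ZMod (l ^ 2)) : ¬ IsUnit ((l : ZMod (l ^ 2)) * b) := by
  intro h
  exact ZMod.prime_natCast_not_isUnit_pow hl two_pos (isUnit_of_mul_isUnit_left h)

lemma nonunit_add (hl : l.Prime) {a b : ZMod (l ^ 2)} (ha : ¬ IsUnit a) (hb : ¬ IsUnit b) :
    ¬ IsUnit (a + b) := by
  obtain ⟨k, rfl⟩ := exists_of_nonunit hl ha
  obtain ⟨j, rfl⟩ := exists_of_nonunit hl hb
  rw [← mul_add]
  exact nonunit_l hl _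

lemma nonunit_neg {a : ZMod (l ^ 2)} (ha : ¬ IsUnit a) :
    ¬ IsUnit (-a) := by rwa [IsUnit.neg_iff]

lemma nonunit_mul_left {a : ZMod (l ^ 2)} (ha : ¬ IsUnit a) (b : ZMod (l ^ 2)) :
    ¬ IsUnit (a * b) := fun h => ha (isUnit_of_mul_isUnit_left h)

lemma nonunit_mul_right {b : ZMod (l ^ 2)} (hb : ¬ IsUnit b) (a : ZMod (l ^ 2)) :
    ¬ IsUnit (a * b) := fun h => hb (isUnit_of_mul_isUnit_right h)

lemma nonunit_mul_nonunit (hl : l.Prime) {a b : ZMod (l ^ 2)} (ha : ¬ IsUnit a)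
    (hb : ¬ IsUnit b) : a * b = 0 := by
  obtain ⟨k, rfl⟩ := exists_of_nonunit hl ha
  obtain ⟨j, rfl⟩ := exists_of_nonunit hl hb
  have h := ZMod.natCast_self (l ^ 2)
  push_cast at h
  linear_combination ((k : ZMod (l ^ 2)) * (j : ZMod (l ^ 2))) * h

/-- code of a nonunit -/
def cod (hl : l.Prime) (a : ZMod (l ^ 2)) : Fin l :=
  ⟨a.val / l, by
    have : NeZero (l ^ 2) := ⟨pow_ne_zero _ hl.ne_zero⟩
    exact Nat.div_lt_of_lt_mul ((ZMod.val_lt a).trans_eq (pow_two l))⟩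

lemma cod_inj (hl : l.Prime) {a b : ZMod (l ^ 2)} (ha : ¬ IsUnit a) (hb : ¬ IsUnit b)
    (h : cod hl a = cod hl b) : a = b := by
  have : NeZero (l ^ 2) := ⟨pow_ne_zero _ hl.ne_zero⟩
  have h1 := (nonunit_iff hl).1 ha
  have h2 := (nonunit_iff hl).1 hb
  have h3 : a.val / l = b.val / l := congrArg Fin.val h
  apply ZMod.val_injective
  rw [← Nat.div_mul_cancel h1, ← Nat.div_mul_cancel h2, h3]

lemma K_unit (hl : l.Prime) (hl2 : l ≠ 2) {I : ZMod (l ^ 2)} (hI : I * I = -1) {κ : ℤ}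
    (hκ : ¬ (l : ℤ) ∣ κ) : IsUnit (2 * I * (κ : ZMod (l ^ 2))) := by
  refine ((two_unit hl hl2 2).mul (isUnit_I hI)).mul ?_
  rw [ZMod.coe_int_isUnit_iff_isCoprime]
  push_cast
  exact IsCoprime.pow_left ((Nat.prime_iff_prime_int.1 hl).coprime_iff_not_dvd.2 hκ)

lemma occ_A (hl : l.Prime) (hl2 : l ≠ 2) {I : ZMod (l ^ 2)} (hI : I * I = -1) {κ : ℤ}
    (hκ : ¬ (l : ℤ) ∣ κ) :
    Occ {e | dt e.1 e.2 = κ ∧ ¬ IsUnit (ph I e.1) ∧ ¬ IsUnit (ph (-I) e.2)} (l ^ 2) (l ^ 4) := by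
  have : NeZero (l ^ 2) := ⟨pow_ne_zero _ hl.ne_zero⟩
  refine ⟨(Fin l × Fin l) × ZMod (l ^ 2), inferInstance,
    fun e => ((cod hl (ph I e.1), cod hl (ph (-I) e.2)), ph (-I) e.1), ?_, ?_⟩
  · simp only [Fintype.card_prod, ZMod.card, Fintype.card_fin]
    apply le_of_eq; ring
  · rintro e ⟨h1, h2, h3⟩ e' ⟨h4, h5, h6⟩ hee
    have hee1 := Prod.mk.inj hee
    have hee2 := Prod.mk.inj hee1.1
    have k1 := cod_inj hl h2 h5 hee2.1
    have k2 := cod_inj hl h3 h6 hee2.2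
    have k3 := hee1.2
    have hK := K_unit hl hl2 hI hκ
    have r1 := dt_ph (I := I) e.1 e.2
    have r2 := dt_ph (I := I) e'.1 e'.2
    rw [h1, nonunit_mul_nonunit hl h2 h3, sub_zero] at r1
    rw [h4, nonunit_mul_nonunit hl h5 h6, sub_zero] at r2
    have hb : IsUnit (ph (-I) e.1) := isUnit_of_mul_isUnit_left (r1 ▸ hK)
    rw [← k3] at r2
    have k4 : ph I e.2 = ph I e'.2 := hb.mul_left_cancel (r1.trans r2.symm)
    have h2u := two_unit hl hl2 2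
    exact ⟨dvd_sub_of_ph hI h2u k1 k3, dvd_sub_of_ph hI h2u k4 k2⟩

lemma occ_B (hl : l.Prime) (hl2 : l ≠ 2) {I : ZMod (l ^ 2)} (hI : I * I = -1) {κ : ℤ}
    (hκ : ¬ (l : ℤ) ∣ κ) :
    Occ {e | dt e.1 e.2 = κ ∧ ph I e.2 = 0} (l ^ 2) (l ^ 4) := by
  have : NeZero (l ^ 2) := ⟨pow_ne_zero _ hl.ne_zero⟩
  refine ⟨ZMod (l ^ 2) × ZMod (l ^ 2), inferInstance,
    fun e => (ph (-I) e.2, ph (-I) e.1), ?_, ?_⟩
  · simp only [Fintype.card_prod, ZMod.card]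
    apply le_of_eq; ring
  · rintro e ⟨h1, h2⟩ e' ⟨h4, h5⟩ hee
    obtain ⟨k1, k2⟩ := Prod.mk.inj hee
    have hK := K_unit hl hl2 hI hκ
    have r1 := dt_ph (I := I) e.1 e.2
    have r2 := dt_ph (I := I) e'.1 e'.2
    rw [h1, h2, mul_zero, zero_sub, neg_eq_iff_eq_neg] at r1
    rw [h4, h5, mul_zero, zero_sub, neg_eq_iff_eq_neg] at r2
    have hb : IsUnit (ph (-I) e.2) := isUnit_of_mul_isUnit_right (r1 ▸ hK.neg)
    rw [← k1] at r2
    have k4 : ph I e.1 = ph I e'.1 := hb.mul_right_cancel (r1.trans r2.symm)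
    have h2u := two_unit hl hl2 2
    exact ⟨dvd_sub_of_ph hI h2u k4 k2, dvd_sub_of_ph hI h2u (h2.trans h5.symm) k1⟩

lemma nm_nonunit (hl : l.Prime) {I : ZMod (l ^ 2)} (hI : I * I = -1) {z : GaussianInt}
    (h : l ∣ nm z) : ¬ IsUnit (ph I z) ∨ ¬ IsUnit (ph (-I) z) := by
  rw [← not_and_or, ← IsUnit.mul_iff, ← nm_ph hI]
  obtain ⟨k, hk⟩ := h
  rw [hk]
  push_cast
  exact nonunit_l hl _

lemma nm_zero' {I : ZMod (l ^ 2)} (hI : I * I = -1) {z : GaussianInt}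
    (h : l ^ 2 ∣ nm z) : ph I z * ph (-I) z = 0 := by
  rw [← nm_ph hI]
  exact (ZMod.natCast_eq_zero_iff _ _).2 h

/-- not both terms of a unit determinant are nonunits -/
lemma dt_unit (hl : l.Prime) (hl2 : l ≠ 2) {I : ZMod (l ^ 2)} (hI : I * I = -1) {κ : ℤ}
    (hκ : ¬ (l : ℤ) ∣ κ) {v w : GaussianInt} (h : dt v w = κ)
    (h1 : ¬ IsUnit (ph (-I) v * ph I w)) (h2 : ¬ IsUnit (ph I v * ph (-I) w)) : False := by
  have hK := K_unit hl hl2 hI hκ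
  have r1 := dt_ph (I := I) v w
  rw [h, sub_eq_add_neg] at r1
  rw [← r1] at hK
  exact nonunit_add hl h1 (nonunit_neg h2) hK

theorem occ2 (hl : l.Prime) (h4 : l % 4 = 1) {κ : ℤ} (hκ : ¬ (l : ℤ) ∣ κ) :
    Occ {e | dt e.1 e.2 = κ ∧ l ∣ nm e.1 ∧ l ∣ nm e.2} (l ^ 2) (2 * l ^ 4) := by
  have hl2 : l ≠ 2 := by rintro rfl; omega
  obtain ⟨I, hI, -⟩ := exists_I hl h4 (k := 2) (Or.inr rfl)
  refine ((occ_A hl hl2 hI hκ).union (occ_A hl hl2 (neg_sq' hI) hκ)).mono ?_ (by omega)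
  rintro e ⟨h1, h2, h3⟩
  simp only [Set.mem_union, Set.mem_ofPred_eq, neg_neg]
  rcases nm_nonunit hl hI h2 with h5 | h5
  · left
    refine ⟨h1, h5, ?_⟩
    rcases nm_nonunit hl hI h3 with h6 | h6
    · exact (dt_unit hl hl2 hI hκ h1 (nonunit_mul_right h6 _) (nonunit_mul_left h5 _)).elim
    · exact h6
  · right
    refine ⟨h1, h5, ?_⟩
    rcases nm_nonunit hl hI h3 with h6 | h6
    · exact h6
    · exact (dt_unit hl hl2 hI hκ h1 (nonunit_mul_left h5 _) (nonunit_mul_right h6 _)).elim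

theorem occ1 (hl : l.Prime) (h4 : l % 4 = 1) {κ : ℤ} (hκ : ¬ (l : ℤ) ∣ κ) :
    Occ {e | dt e.1 e.2 = κ ∧ l ^ 2 ∣ nm e.2} (l ^ 2) (2 * l ^ 4) := by
  have hl2 : l ≠ 2 := by rintro rfl; omega
  obtain ⟨I, hI, -⟩ := exists_I hl h4 (k := 2) (Or.inr rfl)
  refine ((occ_B hl hl2 hI hκ).union (occ_B hl hl2 (neg_sq' hI) hκ)).mono ?_ (by omega)
  rintro e ⟨h1, h2⟩
  simp only [Set.mem_union, Set.mem_ofPred_eq]
  have h3 := nm_zero' hI h2
  by_cases h5 : IsUnit (ph (-I) e.2)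
  · left
    exact ⟨h1, h5.mul_left_eq_zero.1 h3⟩
  · right
    refine ⟨h1, ?_⟩
    by_cases h6 : IsUnit (ph I e.2)
    · exact h6.mul_right_eq_zero.1 h3
    · exact (dt_unit hl hl2 hI hκ h1 (nonunit_mul_right h6 _) (nonunit_mul_right h5 _)).elim

lemma dt_swap (v u : GaussianInt) : dt u v = - dt v u := by
  unfold dt; ring

theorem occ1' (hl : l.Prime) (h4 : l % 4 = 1) {κ : ℤ} (hκ : ¬ (l : ℤ) ∣ κ) :
    Occ {e | dt e.1 e.2 = κ ∧ l ^ 2 ∣ nm e.1} (l ^ 2) (2 * l ^ 4) := by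
  have hκ' : ¬ (l : ℤ) ∣ -κ := by rwa [dvd_neg]
  refine ((occ1 hl h4 hκ').comap (fun e => (e.2, e.1)) ?_).mono ?_ le_rfl
  · rintro e e' ⟨h1, h2⟩
    exact ⟨h2, h1⟩
  · rintro e ⟨h1, h2⟩
    refine ⟨?_, h2⟩
    change dt e.2 e.1 = -κ
    rw [dt_swap, h1]

end

/-- modulo `q` -/
theorem occ3 {q : ℕ} (hq : q.Prime) (h4 : q % 4 = 1) :
    Occ {e | dt e.1 e.2 = 1 ∧ gp q ∣ e.1} q (q ^ 2) := by
  have hq2 : q ≠ 2 := by rintro rfl; omega
  have : NeZero q := ⟨hq.ne_zero⟩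
  have hex := exists_I hq h4 (k := 1) (Or.inl rfl)
  have h2u := two_unit hq hq2 1
  rw [pow_one] at hex h2u
  obtain ⟨I, hI, hρ⟩ := hex
  rw [pow_one] at hρ
  refine ⟨ZMod q × ZMod q, inferInstance, fun e => (ph (-I) e.1, ph (-I) e.2), ?_, ?_⟩
  · simp only [Fintype.card_prod, ZMod.card]
    apply le_of_eq; ring
  · rintro e ⟨h1, h2⟩ e' ⟨h5, h6⟩ hee
    obtain ⟨k1, k2⟩ := Prod.mk.inj hee
    have z1 : ph I e.1 = 0 := by
      obtain ⟨t, ht⟩ := h2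
      rw [ht, ph_mul hI, hρ, zero_mul]
    have z2 : ph I e'.1 = 0 := by
      obtain ⟨t, ht⟩ := h6
      rw [ht, ph_mul hI, hρ, zero_mul]
    have r1 := dt_ph (I := I) e.1 e.2
    have r2 := dt_ph (I := I) e'.1 e'.2
    rw [h1, z1, zero_mul, sub_zero] at r1
    rw [h5, z2, zero_mul, sub_zero] at r2
    have hK : IsUnit (2 * I * ((1 : ℤ) : ZMod q)) := by
      push_cast
      rw [mul_one]
      exact h2u.mul (isUnit_I hI)
    have hb : IsUnit (ph (-I) e.1) := isUnit_of_mul_isUnit_left (r1 ▸ hK)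
    rw [← k1] at r2
    have k4 : ph I e.2 = ph I e'.2 := hb.mul_left_cancel (r1.trans r2.symm)
    exact ⟨dvd_sub_of_ph hI h2u (z1.trans z2.symm) k1, dvd_sub_of_ph hI h2u k4 k2⟩

/-- modulo `q^2` -/
theorem occ4 {q : ℕ} (hq : q.Prime) (h4 : q % 4 = 1) :
    Occ {e | dt e.1 e.2 = 1 ∧ gp q ∣ e.1 ∧ q ^ 2 ∣ nm (e.1 + q * e.2)} (q ^ 2) (q ^ 4) := by
  have hq2 : q ≠ 2 := by rintro rfl; omega
  have : NeZero (q ^ 2) := ⟨pow_ne_zero _ hq.ne_zero⟩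
  obtain ⟨I, hI, hρ⟩ := exists_I hq h4 (k := 2) (Or.inr rfl)
  have h2u := two_unit hq hq2 2
  have hρ' : ¬ IsUnit (ph I (gp q)) := by
    intro h
    have hρ2 : ph I (gp q) * ph I (gp q) = 0 := by
      rw [← ph_mul hI, ← pow_two]
      exact hρ
    have h1 := h.mul h
    rw [hρ2] at h1
    have : Nontrivial (ZMod (q ^ 2)) := ZMod.nontrivial_iff.2 (by
      have := hq.one_lt
      nlinarith)
    exact not_isUnit_zero h1
  have hκ : ¬ (q : ℤ) ∣ 1 := by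
    intro h
    have : q ∣ 1 := by exact_mod_cast h
    exact hq.one_lt.ne' (Nat.dvd_one.1 this)
  -- main facts
  have key : ∀ e : GaussianInt × GaussianInt, dt e.1 e.2 = 1 → gp q ∣ e.1 →
      q ^ 2 ∣ nm (e.1 + q * e.2) → IsUnit (ph (-I) e.1 + q * ph (-I) e.2) ∧
      ph I e.1 = - (q * ph I e.2) ∧
      ph I e.2 * (ph (-I) e.1 + q * ph (-I) e.2) = 2 * I * ((1 : ℤ) : ZMod (q ^ 2)) := by
    intro e h1 h2 h3
    have ha : ¬ IsUnit (ph I e.1) := by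
      obtain ⟨t, ht⟩ := h2
      rw [ht, ph_mul hI]
      exact nonunit_mul_left hρ' _
    have hb : IsUnit (ph (-I) e.1) := by
      by_contra hcon
      exact dt_unit hq hq2 hI hκ h1 (nonunit_mul_left hcon _) (nonunit_mul_left ha _)
    have hu : IsUnit (ph (-I) e.1 + q * ph (-I) e.2) := by
      by_contra hcon
      have h5 := nonunit_add hq hcon (nonunit_neg (nonunit_l hq (ph (-I) e.2)))
      rw [add_neg_cancel_right] at h5
      exact h5 hb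
    have h5 := nm_zero' hI h3
    rw [ph_add, ph_add, ph_mul hI, ph_mul (neg_sq' hI), ph_nat, ph_nat] at h5
    have h6 := hu.mul_left_eq_zero.1 h5
    have h7 : ph I e.1 = - (q * ph I e.2) := eq_neg_of_add_eq_zero_left h6
    refine ⟨hu, h7, ?_⟩
    have r1 := dt_ph (I := I) e.1 e.2
    rw [h1, h7] at r1
    rw [← r1]
    ring
  refine ⟨ZMod (q ^ 2) × ZMod (q ^ 2), inferInstance,
    fun e => (ph (-I) e.1, ph (-I) e.2), ?_, ?_⟩
  · simp only [Fintype.card_prod, ZMod.card]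
    apply le_of_eq; ring
  · rintro e ⟨h1, h2, h3⟩ e' ⟨h5, h6, h7⟩ hee
    obtain ⟨k1, k2⟩ := Prod.mk.inj hee
    obtain ⟨m1, m2, m3⟩ := key e h1 h2 h3
    obtain ⟨n1, n2, n3⟩ := key e' h5 h6 h7
    rw [← k1, ← k2] at n3
    have k4 : ph I e.2 = ph I e'.2 := m1.mul_right_cancel (m3.trans n3.symm)
    have k5 : ph I e.1 = ph I e'.1 := by rw [m2, n2, k4]
    exact ⟨dvd_sub_of_ph hI h2u k5 k1, dvd_sub_of_ph hI h2u k4 k2⟩

end Pool.Agent.W880.GM
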